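import Pool.Agent.N879.PU.Asm3
import Pool.Agent.N879.PU.Em
import Pool.Agent.N879.PU.Iru
import Pool.Agent.N879.PU.Ku
import Pool.Agent.N879.PU.Mv
import Pool.Agent.N879.PU.Reg
import Pool.Agent.N879.PU.Sms
import Pool.Agent.N879.PU.Telu
import Pool.Agent.N879.PU.Winu
import Pool.Agent.TH509.GS.DIAG
import Pool.Agent.TH367.GS.SS
import Pool.Agent.TH347.GS.A4
import Pool.Agent.TH228.GS.ZM
import Pool.Agent.TH767.GS.NS
import Pool.Agent.TH448.GS.FL2
import Pool.Agent.TH757.GS.CONT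
import Pool.Agent.TH753.GS.GL2
import Pool.Agent.TH811.GS.One
import Pool.Agent.TH928.GS.MV

set_option autoImplicit false

/-! Project PU: all parts together. -/

namespace Pool.Agent.W2helper63.PU

open MeasureTheory Set
open Pool.Agent.TH612.GS (mP)
open Pool.Agent.N879.PU

theorem main : S_MAINU2 :=
  t_MAINU2 (t_KU t_EM t_MVS (t_MVT t_MVS)) (t_REG t_SMS) (t_WINU t_MVS) t_TELU t_IRU
    Pool.Agent.TH509.GS.t_DIAG (Pool.Agent.TH367.GS.t_SS Pool.Agent.TH448.GS.t_FL2)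
    (Pool.Agent.TH347.GS.t_A4 Pool.Agent.TH757.GS.t_CONT (Pool.Agent.TH753.GS.t_GL2 Pool.Agent.TH448.GS.t_FL2))
    (Pool.Agent.TH228.GS.t_ZM (Pool.Agent.TH811.GS.t_ONE Pool.Agent.TH928.GS.t_MV)) Pool.Agent.TH767.GS.t_NS

/-- the measure of the cube -/
lemma mP_apply (ι : Type) [Fintype ι] (U : ℝ) (s : Set (ι → ℝ)) :
    mP ι U s = volume {γ : ι → ℝ | (∀ i, γ i ∈ Icc 0 U) ∧ γ ∈ s} := by
  have h : mP ι U = (volume : Measure (ι → ℝ)).restrict (Set.pi Set.univ fun _ => Icc 0 U) := by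
    unfold mP
    rw [volume_pi, Measure.restrict_pi_pi]
  rw [h, Measure.restrict_apply' (MeasurableSet.univ_pi fun _ => measurableSet_Icc)]
  congr 1
  ext γ
  simp only [mem_inter_iff, mem_pi, mem_univ, true_implies, mem_ofPred_eq]
  exact and_comm

end Pool.Agent.W2helper63.PU
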